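import Pool.Agent.H85.SC.Stmt

/-!
MP_de9001_an: the tree of finite approximations to a failure of synthesis (definitions).
-/

open MeasureTheory AddCircle

namespace Pool.Agent.H26.SynTree

open Pool.Agent.H87.Synth

noncomputable section

/-- Trigonometric polynomials with coefficients in `ℚ(i)`; the pair `(a, b)` stands for
`a + b i`. This is a countable set. -/
abbrev Poly : Type := ℤ →₀ ℚ × ℚ

/-- The complex number `a + b i`. -/
def val (c : ℚ × ℚ) : ℂ := (c.1 : ℂ) + (c.2 : ℂ) * Complex.I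

/-- The trigonometric polynomial as an element of `L¹`. -/
def toL1 (p : Poly) : L1 := ∑ n ∈ p.support, val (p n) • (fourierLp 1 n : L1)

/-- The first `K` terms of the levels `L 0 < L 1 < ⋯` and of the rational trigonometric
polynomials `f 0, f 1, …` are admissible for the Boolean matrix `ρ`. -/
structure Adm (ρ : ℤ → ℤ → Bool) (K : ℕ) (L : ℕ → ℕ) (f : ℕ → Poly) : Prop where
  /-- the levels increase -/
  inc : ∀ i, i + 1 < K → L i < L (i + 1)
  /-- successive polynomials are close in `L¹` -/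
  cau : ∀ i, i + 1 < K → ‖toL1 (f (i + 1)) - toL1 (f i)‖ ≤ (1 / 2 : ℝ) ^ (i + 1)
  /-- the coefficients of `f i` at equivalent points of `[-L i, L i]` are close -/
  con : ∀ i, i < K → ∀ m n : ℤ, |m| ≤ L i → |n| ≤ L i → ρ m n = true →
    ‖val (f i m) - val (f i n)‖ ≤ (1 / 2 : ℝ) ^ i
  /-- `f 0` has distance at least `2` to the polynomials of degree at most `L i` whose
  coefficients are equal at equivalent points of `[-L (i + 1), L (i + 1)]` -/
  dst : ∀ i, i + 1 < K → ∀ p : Poly, (∀ n : ℤ, (L i : ℤ) < |n| → p n = 0) →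
    (∀ m n : ℤ, |m| ≤ L (i + 1) → |n| ≤ L (i + 1) → ρ m n = true → p m = p n) →
    2 ≤ ‖toL1 (f 0) - toL1 p‖
  /-- classes which meet `[-L i, L i]` and have points beyond `L (i + 1)` coincide -/
  one : ∀ i j, i + 1 < j → j < K → ∀ m n k l : ℤ, |m| ≤ L i → |n| ≤ L i →
    (L (i + 1) : ℤ) < |k| → |k| ≤ L j → (L (i + 1) : ℤ) < |l| → |l| ≤ L j →
    ρ m k = true → ρ n l = true → ρ m n = true

/-- The tree `T(ρ)`: the finite sequences `(L 0, f 0), …, (L (K - 1), f (K - 1))` which are
admissible for `ρ`. -/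
def tree (ρ : ℤ → ℤ → Bool) : Set (List (ℕ × Poly)) :=
  {s | Adm ρ s.length (fun i => (s.getD i (0, 0)).1) (fun i => (s.getD i (0, 0)).2)}

end

end Pool.Agent.H26.SynTree
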