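import Pool.Agent.H26.SynTree.Defs
import Pool.Agent.H35.SC.CHR

/-!
MP_de9001_an: an equivalence relation has the synthesis property iff its tree has no infinite
branch.
-/

open MeasureTheory AddCircle

namespace Pool.Agent.H26.SynTree

open Pool.Agent.H87.Synth Pool.Agent.H85.SC

noncomputable section

theorem val_zero : val 0 = 0 := by simp [val]

theorem toL1_eq (p : Poly) :
    toL1 p = Finsupp.linearCombination ℂ ex (p.mapRange val val_zero) := by
  rw [Finsupp.linearCombination_apply, Finsupp.sum_mapRange_index (by intro a; simp), Finsupp.sum]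
  rfl

theorem coeff_toL1 (p : Poly) (n : ℤ) : coeff (toL1 p) n = val (p n) := by
  rw [toL1_eq, coeff_linComb, Finsupp.mapRange_apply]

theorem exists_round (ε : ℝ) (hε : 0 < ε) :
    ∃ ro : ℂ → ℚ × ℚ, ro 0 = 0 ∧ ∀ z, ‖z - val (ro z)‖ ≤ ε := by
  classical
  have h1 : ∀ x : ℝ, ∃ q : ℚ, |x - q| ≤ ε / 2 := by
    intro x
    obtain ⟨q, hq⟩ := exists_rat_near x (half_pos hε)
    exact ⟨q, hq.le⟩
  choose q hq using h1
  refine ⟨fun z => if z = 0 then 0 else (q z.re, q z.im), by simp, fun z => ?_⟩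
  by_cases hz : z = 0
  · simp [hz, val_zero, hε.le]
  · change ‖z - val (if z = 0 then 0 else (q z.re, q z.im))‖ ≤ ε
    rw [if_neg hz]
    have h2 : z - val (q z.re, q z.im) =
        ((z.re - (q z.re : ℝ) : ℝ) : ℂ) + ((z.im - (q z.im : ℝ) : ℝ) : ℂ) * Complex.I := by
      apply Complex.ext <;> simp [val]
    rw [h2]
    refine (norm_add_le _ _).trans ?_
    rw [norm_mul, Complex.norm_I, mul_one, Complex.norm_real, Complex.norm_real, Real.norm_eq_abs,
      Real.norm_eq_abs]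
    have := hq z.re
    have := hq z.im
    linarith

/-- rounding of a class constant polynomial -/
theorem exists_rat_poly (c : ℤ →₀ ℂ) (ε : ℝ) (hε : 0 < ε) :
    ∃ p : Poly, (∀ m n, c m = c n → p m = p n) ∧ (∀ n, c n = 0 → p n = 0) ∧
      ‖Finsupp.linearCombination ℂ ex c - toL1 p‖ ≤ ε := by
  classical
  obtain ⟨ro, hro0, hro⟩ := exists_round (ε / (c.support.card + 1)) (by positivity)
  refine ⟨c.mapRange ro hro0, fun m n h => ?_, fun n h => ?_, ?_⟩
  · rw [Finsupp.mapRange_apply, Finsupp.mapRange_apply, h]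
  · rw [Finsupp.mapRange_apply, h, hro0]
  · have h1 : Finsupp.linearCombination ℂ ex c - toL1 (c.mapRange ro hro0) =
        ∑ n ∈ c.support, (c n - val (ro (c n))) • ex n := by
      apply ext_coeff
      intro n
      rw [coeff_sub, coeff_linComb, coeff_toL1, coeff_sum, Finsupp.mapRange_apply]
      simp only [coeff_smul, coeff_ex, mul_ite, mul_one, mul_zero, Finset.sum_ite_eq']
      split_ifs with h
      · rfl
      · rw [Finsupp.notMem_support_iff.1 h, hro0, val_zero, sub_zero]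
    rw [h1]
    have h2 : ∀ n ∈ c.support, ‖(c n - val (ro (c n))) • ex n‖ ≤ ε / (c.support.card + 1) := by
      intro n _
      rw [norm_smul, norm_ex, mul_one]
      exact hro _
    refine (norm_sum_le_of_le _ h2).trans ?_
    rw [Finset.sum_const, nsmul_eq_mul, mul_div_assoc', div_le_iff₀ (by positivity)]
    nlinarith

theorem dense_poly (f : L1) (ε : ℝ) (hε : 0 < ε) : ∃ p : Poly, ‖f - toL1 p‖ ≤ ε := by
  obtain ⟨g, hg, hfg⟩ := dense_span_ex f (ε / 2) (half_pos hε)
  obtain ⟨c, hc⟩ := (Finsupp.mem_span_range_iff_exists_finsupp).1 hg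
  obtain ⟨p, -, -, hp⟩ := exists_rat_poly c (ε / 2) (half_pos hε)
  refine ⟨p, ?_⟩
  have h1 : Finsupp.linearCombination ℂ ex c = g := by
    rw [Finsupp.linearCombination_apply]; exact hc
  rw [h1] at hp
  have h2 : f - toL1 p = (f - g) + (g - toL1 p) := by abel
  rw [h2]
  refine (norm_add_le _ _).trans ?_
  linarith

/-- admissibility depends only on the terms with index `< K` -/
theorem Adm.mono {ρ : ℤ → ℤ → Bool} {K K' : ℕ} {L L' : ℕ → ℕ} {f f' : ℕ → Poly}
    (h : Adm ρ K L f) (hK : K' ≤ K) (hL : ∀ i, i < K' → L' i = L i)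
    (hf : ∀ i, i < K' → f' i = f i) : Adm ρ K' L' f' := by
  refine ⟨fun i hi => ?_, fun i hi => ?_, fun i hi => ?_, fun i hi => ?_, fun i j hij hj => ?_⟩
  · rw [hL i (by omega), hL (i + 1) hi]
    exact h.inc i (by omega)
  · rw [hf i (by omega), hf (i + 1) hi]
    exact h.cau i (by omega)
  · rw [hL i hi, hf i hi]
    exact h.con i (by omega)
  · rw [hL i (by omega), hL (i + 1) hi, hf 0 (by omega)]
    exact h.dst i (by omega)
  · rw [hL i (by omega), hL (i + 1) (by omega), hL j hj]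
    exact h.one i j hij (by omega)

/-- admissibility depends only on a finite piece of the relation -/
theorem Adm.congr {ρ ρ' : ℤ → ℤ → Bool} {K B : ℕ} {L : ℕ → ℕ} {f : ℕ → Poly}
    (h : Adm ρ K L f) (hB : ∀ i, i < K → L i ≤ B)
    (hρ : ∀ m n : ℤ, |m| ≤ B → |n| ≤ B → ρ m n = ρ' m n) : Adm ρ' K L f := by
  have hb : ∀ i, i < K → ∀ m : ℤ, |m| ≤ L i → |m| ≤ B := fun i hi m hm =>
    hm.trans (by exact_mod_cast hB i hi)
  refine ⟨h.inc, h.cau, fun i hi m n hm hn hmn => ?_, fun i hi p hp hc => ?_,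
    fun i j hij hj m n k l hm hn hk hk' hl hl' hmk hnl => ?_⟩
  · exact h.con i hi m n hm hn ((hρ m n (hb i hi m hm) (hb i hi n hn)).trans hmn)
  · refine h.dst i hi p hp fun m n hm hn hmn => hc m n hm hn ?_
    exact (hρ m n (hb _ hi m hm) (hb _ hi n hn)).symm.trans hmn
  · rw [← hρ m n (hb i (by omega) m hm) (hb i (by omega) n hn)]
    exact h.one i j hij hj m n k l hm hn hk hk' hl hl'
      ((hρ m k (hb i (by omega) m hm) (hb j hj k hk')).trans hmk)
      ((hρ n l (hb i (by omega) n hn) (hb j hj l hl')).trans hnl)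

theorem tree_local (ρ ρ' : ℤ → ℤ → Bool) (s : List (ℕ × Poly)) (B : ℕ)
    (hB : ∀ x ∈ s, x.1 ≤ B) (hρ : ∀ m n : ℤ, |m| ≤ B → |n| ≤ B → ρ m n = ρ' m n) :
    s ∈ tree ρ ↔ s ∈ tree ρ' := by
  have hb : ∀ i, i < s.length → (s.getD i (0, 0)).1 ≤ B := by
    intro i hi
    rw [List.getD_eq_getElem _ _ hi]
    exact hB _ (List.getElem_mem hi)
  exact ⟨fun h => Adm.congr h hb hρ, fun h => Adm.congr h hb fun m n hm hn => (hρ m n hm hn).symm⟩

theorem tree_prefix (ρ : ℤ → ℤ → Bool) (s t : List (ℕ × Poly)) (hts : t <+: s)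
    (hs : s ∈ tree ρ) : t ∈ tree ρ := by
  obtain ⟨u, rfl⟩ := hts
  refine Adm.mono hs (by simp) (fun i hi => ?_) (fun i hi => ?_)
  · rw [List.getD_append _ _ _ _ hi]
  · rw [List.getD_append _ _ _ _ hi]

theorem mem_tree_ofFn (ρ : ℤ → ℤ → Bool) (x : ℕ → ℕ × Poly) (K : ℕ) :
    (List.ofFn fun i : Fin K => x i) ∈ tree ρ ↔
      Adm ρ K (fun i => (x i).1) (fun i => (x i).2) := by
  have hget : ∀ i, i < K → (List.ofFn fun i : Fin K => x i).getD i (0, 0) = x i := by
    intro i hi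
    rw [List.getD_eq_getElem _ _ (by simpa using hi)]
    simp
  constructor
  · intro h
    have h' : Adm ρ (List.ofFn fun i : Fin K => x i).length
      (fun i => ((List.ofFn fun i : Fin K => x i).getD i (0, 0)).1)
      (fun i => ((List.ofFn fun i : Fin K => x i).getD i (0, 0)).2) := h
    rw [List.length_ofFn] at h'
    exact h'.mono le_rfl (fun i hi => by rw [hget i hi]) (fun i hi => by rw [hget i hi])
  · intro h
    change Adm ρ (List.ofFn fun i : Fin K => x i).length _ _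
    rw [List.length_ofFn]
    exact h.mono le_rfl (fun i hi => by rw [hget i hi]) (fun i hi => by rw [hget i hi])

/-- the next level -/
theorem exists_next (r : Setoid ℤ) (l : ℕ) : ∃ l' : ℕ, l < l' ∧
    (∀ n : ℤ, |n| ≤ l → (∃ m : ℤ, r n m ∧ (l : ℤ) < |m|) →
      ∃ m : ℤ, r n m ∧ (l : ℤ) < |m| ∧ |m| ≤ l') ∧
    (∀ n : ℤ, |n| ≤ l → {m | r n m}.Finite → ∀ m : ℤ, r n m → |m| ≤ l') := by
  classical
  have h1 : ∀ n : ℤ, ∃ b : ℕ, ((∃ m : ℤ, r n m ∧ (l : ℤ) < |m|) →
      ∃ m : ℤ, r n m ∧ (l : ℤ) < |m| ∧ |m| ≤ b) ∧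
      ({m | r n m}.Finite → ∀ m : ℤ, r n m → |m| ≤ b) := by
    intro n
    have h2 : ∃ b1 : ℕ, (∃ m : ℤ, r n m ∧ (l : ℤ) < |m|) →
        ∃ m : ℤ, r n m ∧ (l : ℤ) < |m| ∧ |m| ≤ b1 := by
      by_cases h : ∃ m : ℤ, r n m ∧ (l : ℤ) < |m|
      · obtain ⟨m, hm1, hm2⟩ := h
        exact ⟨m.natAbs, fun _ => ⟨m, hm1, hm2, by rw [Int.abs_eq_natAbs]⟩⟩
      · exact ⟨0, fun h' => absurd h' h⟩
    have h3 : ∃ b2 : ℕ, {m | r n m}.Finite → ∀ m : ℤ, r n m → |m| ≤ b2 := by
      by_cases h : {m | r n m}.Finite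
      · refine ⟨h.toFinset.sup fun m => m.natAbs, fun _ m hm => ?_⟩
        rw [Int.abs_eq_natAbs]
        exact_mod_cast Finset.le_sup (f := fun m : ℤ => m.natAbs) (h.mem_toFinset.2 hm)
      · exact ⟨0, fun h' => absurd h' h⟩
    obtain ⟨b1, hb1⟩ := h2
    obtain ⟨b2, hb2⟩ := h3
    refine ⟨max b1 b2, fun h => ?_, fun h m hm => ?_⟩
    · obtain ⟨m, hm1, hm2, hm3⟩ := hb1 h
      exact ⟨m, hm1, hm2, hm3.trans (by exact_mod_cast le_max_left _ _)⟩
    · exact (hb2 h m hm).trans (by exact_mod_cast le_max_right _ _)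
  choose b hb1 hb2 using h1
  set S : Finset ℤ := Finset.Icc (-(l : ℤ)) l with hS
  have hmem : ∀ n : ℤ, |n| ≤ l → n ∈ S := fun n hn => by
    rw [hS, Finset.mem_Icc]; exact abs_le.1 hn
  refine ⟨max (S.sup b) (l + 1), ?_, fun n hn h => ?_, fun n hn h m hm => ?_⟩
  · exact lt_of_lt_of_le (Nat.lt_succ_self l) (le_max_right _ _)
  · obtain ⟨m, hm1, hm2, hm3⟩ := hb1 n h
    refine ⟨m, hm1, hm2, hm3.trans ?_⟩
    exact_mod_cast (Finset.le_sup (f := b) (hmem n hn)).trans (le_max_left _ _)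
  · refine (hb2 n h m hm).trans ?_
    exact_mod_cast (Finset.le_sup (f := b) (hmem n hn)).trans (le_max_left _ _)

theorem pow_le_aux (i : ℕ) : (1 / 2 : ℝ) ^ (i + 3) + (1 / 2 : ℝ) ^ (i + 2) ≤
    (1 / 2 : ℝ) ^ (i + 1) := by
  have h : 0 < (1 / 2 : ℝ) ^ i := by positivity
  rw [pow_add, pow_add, pow_add]
  nlinarith

/-- a failure of synthesis gives an infinite branch -/
theorem branch_of_fail {ρ : ℤ → ℤ → Bool} {r : Setoid ℤ} (hρ : IsGraph ρ r)
    (h : ¬ HasSynthesis r) :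
    ∃ x : ℕ → ℕ × Poly, ∀ K, (List.ofFn fun i : Fin K => x i) ∈ tree ρ := by
  classical
  obtain ⟨hone, happ⟩ := (Pool.Agent.H35.SC.chr r).1 h
  unfold Approx at happ
  push Not at happ
  obtain ⟨f, hcon, hinf, ε, hε, hdist⟩ := happ
  -- scaling
  set a : ℂ := ((4 / ε : ℝ) : ℂ) with ha
  have ha0 : a ≠ 0 := by
    rw [ha]; exact_mod_cast (div_pos (by norm_num) hε).ne'
  have hna : ‖a‖ = 4 / ε := by
    rw [ha, Complex.norm_real, Real.norm_eq_abs, abs_of_pos (div_pos (by norm_num) hε)]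
  set g : L1 := a • f with hg
  have hgcon : ∀ m n, r m n → coeff g m = coeff g n := by
    intro m n hmn
    rw [hg, coeff_smul, coeff_smul]
    congr 1
    exact hcon m n hmn
  have hgdist : ∀ c : ℤ →₀ ℂ, (∀ m n, r m n → c m = c n) →
      4 ≤ ‖g - Finsupp.linearCombination ℂ ex c‖ := by
    intro c hc
    have h1 := hdist (a⁻¹ • c) (fun m n hmn => by
      rw [Finsupp.smul_apply, Finsupp.smul_apply, hc m n hmn])
    have h2 : ε ≤ ‖f - Finsupp.linearCombination ℂ ex (a⁻¹ • c)‖ := h1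
    have h3 : g - Finsupp.linearCombination ℂ ex c =
        a • (f - Finsupp.linearCombination ℂ ex (a⁻¹ • c)) := by
      rw [map_smul, smul_sub, smul_smul, mul_inv_cancel₀ ha0, one_smul]
    rw [h3, norm_smul, hna]
    calc (4 : ℝ) = 4 / ε * ε := by field_simp
      _ ≤ _ := mul_le_mul_of_nonneg_left h2 (by positivity)
  -- polynomials
  have hF : ∀ i : ℕ, ∃ p : Poly, ‖g - toL1 p‖ ≤ (1 / 2 : ℝ) ^ (i + 2) := fun i =>
    dense_poly g _ (by positivity)
  choose F hF using hF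
  -- levels
  choose nx hnx1 hnx2 hnx3 using exists_next r
  obtain ⟨L, hLs⟩ : ∃ L : ℕ → ℕ, ∀ i, L (i + 1) = nx (L i) :=
    ⟨fun i => Nat.rec 0 (fun _ l => nx l) i, fun i => rfl⟩
  have hinc : ∀ i, L i < L (i + 1) := fun i => by rw [hLs]; exact hnx1 _
  refine ⟨fun i => (L i, F i), fun K => (mem_tree_ofFn ρ (fun i => (L i, F i)) K).2 ?_⟩
  refine ⟨fun i _ => hinc i, fun i _ => ?_, fun i _ m n _ _ hmn => ?_,
    fun i _ p hp0 hpc => ?_, fun i j _ _ m n k l hm hn hk _ hl _ hmk hnl => ?_⟩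
  · change ‖toL1 (F (i + 1)) - toL1 (F i)‖ ≤ _
    have h1 : toL1 (F (i + 1)) - toL1 (F i) = (g - toL1 (F i)) - (g - toL1 (F (i + 1))) := by abel
    rw [h1]
    refine (norm_sub_le _ _).trans ?_
    have h2 := hF i
    have h3 := hF (i + 1)
    have h4 := pow_le_aux i
    have h5 : (1 / 2 : ℝ) ^ (i + 1 + 2) = (1 / 2 : ℝ) ^ (i + 3) := by ring_nf
    rw [h5] at h3
    linarith
  · change ‖val (F i m) - val (F i n)‖ ≤ _
    have hmn' : r m n := (hρ m n).1 hmn
    have h1 : val (F i m) - val (F i n) =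
        coeff (g - toL1 (F i)) n - coeff (g - toL1 (F i)) m := by
      rw [coeff_sub, coeff_sub, coeff_toL1, coeff_toL1, hgcon m n hmn']; ring
    rw [h1]
    refine (norm_sub_le _ _).trans ?_
    have h2 := norm_coeff_le (g - toL1 (F i)) n
    have h3 := norm_coeff_le (g - toL1 (F i)) m
    have h4 := hF i
    have h5 : (1 / 2 : ℝ) ^ (i + 2) = (1 / 2 : ℝ) ^ i / 4 := by rw [pow_add]; norm_num; ring
    have h6 : 0 < (1 / 2 : ℝ) ^ i := by positivity
    rw [h5] at h4
    linarith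
  · change 2 ≤ ‖toL1 (F 0) - toL1 p‖
    have hp0' : ∀ n : ℤ, (L i : ℤ) < |n| → p n = 0 := by
      intro n hn
      exact hp0 n hn
    have hpc' : ∀ m n : ℤ, |m| ≤ L (i + 1) → |n| ≤ L (i + 1) → ρ m n = true → p m = p n := by
      intro m n hm hn hmn
      exact hpc m n hm hn hmn
    have hle : (L i : ℤ) ≤ L (i + 1) := by exact_mod_cast (hinc i).le
    have hz : ∀ n : ℤ, |n| ≤ L i → ∀ m : ℤ, r n m → (L i : ℤ) < |m| → p n = 0 := by
      intro n hn m hnm hm
      obtain ⟨m', h1, h2, h3⟩ := hnx2 (L i) n hn ⟨m, hnm, hm⟩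
      rw [← hLs] at h3
      rw [hpc' n m' (hn.trans hle) h3 ((hρ n m').2 h1), hp0' m' h2]
    have hcl : ∀ m n : ℤ, r m n → p m = p n := by
      intro m n hmn
      by_cases hm : |m| ≤ L i
      · by_cases hn : |n| ≤ L i
        · exact hpc' m n (hm.trans hle) (hn.trans hle) ((hρ m n).2 hmn)
        · push Not at hn
          rw [hz m hm n hmn hn, hp0' n hn]
      · push Not at hm
        by_cases hn : |n| ≤ L i
        · rw [hz n hn m (r.symm hmn) hm, hp0' m hm]
        · push Not at hn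
          rw [hp0' m hm, hp0' n hn]
    have h1 := hgdist (p.mapRange val val_zero) (fun m n hmn => by
      rw [Finsupp.mapRange_apply, Finsupp.mapRange_apply, hcl m n hmn])
    rw [← toL1_eq] at h1
    have h2 := hF 0
    have h3 : g - toL1 p = (g - toL1 (F 0)) + (toL1 (F 0) - toL1 p) := by abel
    rw [h3] at h1
    have h4 := norm_add_le (g - toL1 (F 0)) (toL1 (F 0) - toL1 p)
    norm_num at h2
    linarith
  · have hm' : |m| ≤ L i := by exact hm
    have hn' : |n| ≤ L i := by exact hn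
    have hk' : (L (i + 1) : ℤ) < |k| := by exact hk
    have hl' : (L (i + 1) : ℤ) < |l| := by exact hl
    rw [hLs] at hk' hl'
    refine (hρ m n).2 (hone m n ?_ ?_)
    · intro hfin
      have := hnx3 (L i) m hm' hfin k ((hρ m k).1 hmk)
      omega
    · intro hfin
      have := hnx3 (L i) n hn' hfin l ((hρ n l).1 hnl)
      omega

/-- an infinite branch gives a failure of synthesis -/
theorem fail_of_branch {ρ : ℤ → ℤ → Bool} {r : Setoid ℤ} (hρ : IsGraph ρ r)
    (x : ℕ → ℕ × Poly) (hx : ∀ K, (List.ofFn fun i : Fin K => x i) ∈ tree ρ) :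
    ¬ HasSynthesis r := by
  classical
  have hA : ∀ K, Adm ρ K (fun i => (x i).1) (fun i => (x i).2) := fun K =>
    (mem_tree_ofFn ρ x K).1 (hx K)
  generalize hL : (fun i => (x i).1) = L at hA
  generalize hF : (fun i => (x i).2) = F at hA
  have hinc : ∀ i, L i < L (i + 1) := fun i => (hA (i + 2)).inc i (by omega)
  have hmono : StrictMono L := strictMono_nat_of_lt_succ hinc
  have hLi : ∀ i, i ≤ L i := fun i => hmono.le_apply
  have habs : ∀ (m : ℤ) (i : ℕ), m.natAbs ≤ i → |m| ≤ L i := fun m i hm => by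
    have := hLi i
    rw [Int.abs_eq_natAbs]
    omega
  have hu : ∀ i, dist (toL1 (F i)) (toL1 (F (i + 1))) ≤ 1 / 2 * (1 / 2 : ℝ) ^ i := by
    intro i
    rw [dist_comm, dist_eq_norm, ← pow_succ']
    exact (hA (i + 2)).cau i (by omega)
  obtain ⟨g, hg⟩ := cauchySeq_tendsto_of_complete
    (cauchySeq_of_le_geometric (1 / 2) (1 / 2) (by norm_num) hu)
  have h0 : ‖toL1 (F 0) - g‖ ≤ 1 := by
    have := dist_le_of_le_geometric_of_tendsto₀ (1 / 2) (1 / 2) (by norm_num) hu hg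
    rw [dist_eq_norm] at this
    norm_num at this
    exact this
  have hgcon : ∀ m n, r m n → coeff g m = coeff g n := by
    intro m n hmn
    have hm := ((coeffL m).continuous.tendsto g).comp hg
    have hn := ((coeffL n).continuous.tendsto g).comp hg
    have hd : Filter.Tendsto (fun i => coeff (toL1 (F i)) m - coeff (toL1 (F i)) n) Filter.atTop
        (nhds (coeff g m - coeff g n)) := hm.sub hn
    have hd0 : Filter.Tendsto (fun i => coeff (toL1 (F i)) m - coeff (toL1 (F i)) n) Filter.atTop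
        (nhds 0) := by
      refine squeeze_zero_norm' ?_
        (tendsto_pow_atTop_nhds_zero_of_lt_one (r := (1 / 2 : ℝ)) (by norm_num) (by norm_num))
      filter_upwards [Filter.eventually_ge_atTop (max m.natAbs n.natAbs)] with i hi
      rw [coeff_toL1, coeff_toL1]
      have hi1 := (le_max_left _ _).trans hi
      have hi2 := (le_max_right _ _).trans hi
      exact (hA (i + 1)).con i (by omega) m n (habs m i hi1) (habs n i hi2) ((hρ m n).2 hmn)
    exact sub_eq_zero.1 (tendsto_nhds_unique hd hd0)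
  refine (Pool.Agent.H35.SC.chr r).2 ⟨fun m n hm hn => ?_, fun hap => ?_⟩
  · obtain ⟨i, hi⟩ : ∃ i, i = max m.natAbs n.natAbs := ⟨_, rfl⟩
    have hi1 : m.natAbs ≤ i := hi ▸ le_max_left _ _
    have hi2 : n.natAbs ≤ i := hi ▸ le_max_right _ _
    obtain ⟨k, hk1, hk2⟩ := hm.exists_notMem_finset (Finset.Icc (-(L (i + 1) : ℤ)) (L (i + 1)))
    obtain ⟨l, hl1, hl2⟩ := hn.exists_notMem_finset (Finset.Icc (-(L (i + 1) : ℤ)) (L (i + 1)))
    rw [Finset.mem_Icc, ← abs_le, not_le] at hk2 hl2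
    obtain ⟨j, hj⟩ : ∃ j, j = max (i + 2) (max k.natAbs l.natAbs) := ⟨_, rfl⟩
    have hj1 : i + 2 ≤ j := hj ▸ le_max_left _ _
    have hj2 : k.natAbs ≤ j := hj ▸ (le_max_left _ _).trans (le_max_right _ _)
    have hj3 : l.natAbs ≤ j := hj ▸ (le_max_right _ _).trans (le_max_right _ _)
    exact (hρ m n).1 ((hA (j + 1)).one i j (by omega) (by omega) m n k l (habs m i hi1)
      (habs n i hi2) hk2 (habs k j hj2) hl2 (habs l j hj3) ((hρ m k).2 hk1) ((hρ n l).2 hl1))
  · have hginf : ∀ n, {m | r n m}.Infinite → coeff g n = 0 := fun n hn =>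
      coeff_eq_zero_of_infinite g n _ hn fun m hm => hgcon n m hm
    obtain ⟨c, hc, hcd⟩ := hap g hgcon hginf (1 / 2) (by norm_num)
    obtain ⟨p, hp1, -, hp3⟩ := exists_rat_poly c (1 / 4) (by norm_num)
    have h1 : ‖g - Finsupp.linearCombination ℂ ex c‖ < 1 / 2 := hcd
    obtain ⟨i, hi⟩ : ∃ i, i = p.support.sup fun m => m.natAbs := ⟨_, rfl⟩
    have hp0 : ∀ n : ℤ, (L i : ℤ) < |n| → p n = 0 := by
      intro n hn
      by_contra hne
      have h2 : n.natAbs ≤ i := hi ▸ Finset.le_sup (f := fun m : ℤ => m.natAbs)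
        (Finsupp.mem_support_iff.2 hne)
      have h3 := habs n i h2
      omega
    have h2 := (hA (i + 2)).dst i (by omega) p hp0 fun m n _ _ hmn =>
      hp1 m n (hc m n ((hρ m n).1 hmn))
    have h3 : toL1 (F 0) - toL1 p = (toL1 (F 0) - g) + (g - Finsupp.linearCombination ℂ ex c) +
      (Finsupp.linearCombination ℂ ex c - toL1 p) := by abel
    rw [h3] at h2
    have h4 := norm_add_le ((toL1 (F 0) - g) + (g - Finsupp.linearCombination ℂ ex c))
      (Finsupp.linearCombination ℂ ex c - toL1 p)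
    have h5 := norm_add_le (toL1 (F 0) - g) (g - Finsupp.linearCombination ℂ ex c)
    linarith

/-- **Theorem.** The map `ρ ↦ tree ρ` from Boolean matrices to sets of finite sequences has the
following properties: `tree ρ` is closed under initial segments, a finite sequence is in `tree ρ`
or not depending only on the finite piece `[-B, B] × [-B, B]` of the matrix, where `B` is the
largest level of the sequence, and if `ρ` is the matrix of the equivalence relation `r`, then `r`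
has the synthesis property if and only if `tree ρ` has no infinite branch. -/
theorem main :
    (∀ (ρ : ℤ → ℤ → Bool) (s t : List (ℕ × Poly)), t <+: s → s ∈ tree ρ → t ∈ tree ρ) ∧
    (∀ (ρ ρ' : ℤ → ℤ → Bool) (s : List (ℕ × Poly)) (B : ℕ), (∀ x ∈ s, x.1 ≤ B) →
      (∀ m n : ℤ, |m| ≤ B → |n| ≤ B → ρ m n = ρ' m n) → (s ∈ tree ρ ↔ s ∈ tree ρ')) ∧
    ∀ (ρ : ℤ → ℤ → Bool) (r : Setoid ℤ), IsGraph ρ r →
      (HasSynthesis r ↔
        ¬ ∃ x : ℕ → ℕ × Poly, ∀ K, (List.ofFn fun i : Fin K => x i) ∈ tree ρ) := by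
  refine ⟨tree_prefix, tree_local, fun ρ r hρ => ⟨fun h => ?_, fun h => ?_⟩⟩
  · rintro ⟨x, hx⟩
    exact fail_of_branch hρ x hx h
  · by_contra hns
    exact h (branch_of_fail hρ hns)

end

end Pool.Agent.H26.SynTree
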